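import Pool.Agent.V11145.EdgeMapCore

/-!
# MP_f12eed_co : the global and the host-graph edge-mapping numbers differ

For the path with three vertices and `n = 8` we show `s(8, P_3) ≤ 13` and `p(8, P_3) ≥ 14`.
-/

namespace Pool.Agent.Results.MP_f12eed_co.GlobalNotHost

open Finset

/-- `f(e) ∩ e = ∅`. -/
def DisjointAt {V : Type} {H : SimpleGraph V} (f : H.edgeSet → H.edgeSet) (e : H.edgeSet) : Prop :=
  ∀ x : V, x ∈ (f e : Sym2 V) → x ∉ (e : Sym2 V)

/-- The copy of `G` in `H` given by the injective homomorphism `φ` is `f`-exclusive: no edge of the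
copy is sent by `f` to an edge that meets the vertex set of the copy. -/
def Exclusive {V W : Type} {H : SimpleGraph V} {G : SimpleGraph W} (f : H.edgeSet → H.edgeSet)
    (φ : G.Copy H) : Prop :=
  ∀ e : G.edgeSet, ∀ w : W, φ w ∉ (f (φ.toHom.mapEdgeSet e) : Sym2 V)

/-- `f` is `G`-blocking on `H`: there is no `f`-exclusive copy of `G` in `H`. -/
def Blocking {V W : Type} {H : SimpleGraph V} (G : SimpleGraph W) (f : H.edgeSet → H.edgeSet) :
    Prop :=
  ∀ φ : G.Copy H, ¬ Exclusive f φ

/-- `s(n, G)`: the largest number of edges of an `n`-vertex graph `H` for which some map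
`f : E(H) → E(H)` with `f(e) ∩ e = ∅` for every `e` is `G`-blocking on `H`. -/
noncomputable def s {W : Type} (n : ℕ) (G : SimpleGraph W) : ℕ :=
  sSup {m : ℕ | ∃ H : SimpleGraph (Fin n), ∃ f : H.edgeSet → H.edgeSet,
    (∀ e, DisjointAt f e) ∧ Blocking G f ∧ H.edgeSet.ncard = m}

/-- `p(n, G)`: the largest `m` for which some map `f : E(K_n) → E(K_n)` that has at least `m` edges
with `f(e) ∩ e = ∅` is `G`-blocking on `K_n`. -/
noncomputable def p {W : Type} (n : ℕ) (G : SimpleGraph W) : ℕ :=
  sSup {m : ℕ | ∃ f : (⊤ : SimpleGraph (Fin n)).edgeSet → (⊤ : SimpleGraph (Fin n)).edgeSet,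
    m ≤ {e | DisjointAt f e}.ncard ∧ Blocking G f}

/-! ## Copies of the path -/

section path

variable {V : Type} {H : SimpleGraph V}

def pathHom (a b c : V) (hab : H.Adj a b) (hbc : H.Adj b c) :
    SimpleGraph.pathGraph 3 →g H where
  toFun := ![a, b, c]
  map_rel' := by
    intro u v huv
    rw [SimpleGraph.pathGraph_adj] at huv
    fin_cases u <;> fin_cases v <;> simp at huv ⊢
    · exact hab
    · exact hab.symm
    · exact hbc
    · exact hbc.symm

def pathCopy (a b c : V) (hab : H.Adj a b) (hbc : H.Adj b c) (hac : a ≠ c) :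
    (SimpleGraph.pathGraph 3).Copy H :=
  ⟨pathHom a b c hab hbc, by
    have h1 := hab.ne
    have h2 := hbc.ne
    intro u v huv
    have huv' : (![a, b, c] : Fin 3 → V) u = (![a, b, c] : Fin 3 → V) v := huv
    fin_cases u <;> fin_cases v <;> simp at huv' ⊢
    · exact h1 huv'
    · exact hac huv'
    · exact h1 huv'.symm
    · exact h2 huv'
    · exact hac huv'.symm
    · exact h2 huv'.symm⟩

theorem blocking_path {f : H.edgeSet → H.edgeSet} (hd : ∀ e, DisjointAt f e)
    (hb : Blocking (SimpleGraph.pathGraph 3) f) (a b c : V) (hab : H.Adj a b) (hbc : H.Adj b c)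
    (hac : a ≠ c) : c ∈ (f ⟨s(a, b), hab⟩ : Sym2 V) ∨ a ∈ (f ⟨s(b, c), hbc⟩ : Sym2 V) := by
  by_contra hcon
  push Not at hcon
  obtain ⟨h1, h2⟩ := hcon
  apply hb (pathCopy a b c hab hbc hac)
  intro e w
  have e1 : ∀ x, x ∈ (f ⟨s(a, b), hab⟩ : Sym2 V) → x ≠ a ∧ x ≠ b := by
    intro x hx
    have := hd _ x hx
    simpa using this
  have e2 : ∀ x, x ∈ (f ⟨s(b, c), hbc⟩ : Sym2 V) → x ≠ b ∧ x ≠ c := by
    intro x hx
    have := hd _ x hx
    simpa using this
  obtain ⟨e, he⟩ := e
  induction e using Sym2.ind with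
  | h u v =>
    have hmap : ∀ (x y : V) (hxy : H.Adj x y), s(x, y) = s((![a, b, c] : Fin 3 → V) u,
        (![a, b, c] : Fin 3 → V) v) →
        (pathCopy a b c hab hbc hac).toHom.mapEdgeSet ⟨s(u, v), he⟩ = ⟨s(x, y), hxy⟩ := by
      intro x y hxy h
      apply Subtype.ext
      exact h.symm
    have hadj : (SimpleGraph.pathGraph 3).Adj u v := he
    rw [SimpleGraph.pathGraph_adj] at hadj
    have hw : ∀ x, (pathCopy a b c hab hbc hac) w = x → x = a ∨ x = b ∨ x = c := by
      intro x hx
      have hx' : (![a, b, c] : Fin 3 → V) w = x := hx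
      fin_cases w <;> simp at hx' <;> simp [hx']
    have key1 : (pathCopy a b c hab hbc hac) w ∉ (f ⟨s(a, b), hab⟩ : Sym2 V) := by
      intro hx
      rcases hw _ rfl with h | h | h
      · exact (e1 _ hx).1 h
      · exact (e1 _ hx).2 h
      · rw [h] at hx; exact h1 hx
    have key2 : (pathCopy a b c hab hbc hac) w ∉ (f ⟨s(b, c), hbc⟩ : Sym2 V) := by
      intro hx
      rcases hw _ rfl with h | h | h
      · rw [h] at hx; exact h2 hx
      · exact (e2 _ hx).1 h
      · exact (e2 _ hx).2 h
    fin_cases u <;> fin_cases v <;> simp at hadj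
    · rw [hmap a b hab (by simp)]; exact key1
    · rw [hmap a b hab (by simp [Sym2.eq_swap])]; exact key1
    · rw [hmap b c hbc (by simp)]; exact key2
    · rw [hmap b c hbc (by simp [Sym2.eq_swap])]; exact key2

end path

/-! ## The upper bound for `s` -/

/-- an ordering in which every vertex has minimum degree among its predecessors and itself -/
theorem exists_order {V : Type} [DecidableEq V] [Inhabited V] (A : V → V → ℕ) :
    ∀ (n : ℕ) (U : Finset V), U.card = n → ∃ v : ℕ → V, (∀ i < n, v i ∈ U) ∧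
      (∀ i < n, ∀ j < n, v i = v j → i = j) ∧
      ∀ m < n, ∀ i ≤ m, ∑ j ∈ range (m+1), A (v m) (v j) ≤ ∑ j ∈ range (m+1), A (v i) (v j) := by
  intro n
  induction n with
  | zero =>
    intro U _
    exact ⟨fun _ => default, by simp, by simp, by simp⟩
  | succ n ih =>
    intro U hU
    have hne : U.Nonempty := by rw [← Finset.card_pos]; omega
    obtain ⟨w, hw, hmin⟩ := Finset.exists_min_image U (fun x => ∑ y ∈ U, A x y) hne
    obtain ⟨v', h1, h2, h3⟩ := ih (U.erase w) (by rw [Finset.card_erase_of_mem hw, hU]; rfl)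
    set v : ℕ → V := fun i => if i < n then v' i else w with hv
    have hvlt : ∀ i < n, v i = v' i := fun i hi => by simp [hv, hi]
    have hvn : v n = w := by simp [hv]
    have hmem : ∀ i < n+1, v i ∈ U := by
      intro i hi
      rcases Nat.lt_succ_iff_lt_or_eq.mp hi with h | rfl
      · rw [hvlt i h]; exact Finset.mem_of_mem_erase (h1 i h)
      · rw [hvn]; exact hw
    have hinj : ∀ i < n+1, ∀ j < n+1, v i = v j → i = j := by
      intro i hi j hj hij
      rcases Nat.lt_succ_iff_lt_or_eq.mp hi with h | rfl <;>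
        rcases Nat.lt_succ_iff_lt_or_eq.mp hj with h' | h'
      · rw [hvlt i h, hvlt j h'] at hij; exact h2 i h j h' hij
      · rw [h', hvlt i h, hvn] at hij
        exact absurd (h1 i h) (by rw [hij]; exact Finset.notMem_erase w U)
      · rw [hvlt j h', hvn] at hij
        exact absurd (h1 j h') (by rw [← hij]; exact Finset.notMem_erase w U)
      · exact h'.symm
    refine ⟨v, hmem, hinj, ?_⟩
    intro m hm i hi
    rcases Nat.lt_succ_iff_lt_or_eq.mp hm with h | rfl
    · have hs : ∀ x, ∑ j ∈ range (m+1), A x (v j) = ∑ j ∈ range (m+1), A x (v' j) := by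
        intro x
        refine Finset.sum_congr rfl fun j hj => ?_
        rw [mem_range] at hj
        rw [hvlt j (by omega)]
      rw [hs, hs, hvlt m h, hvlt i (by omega)]
      exact h3 m h i hi
    · have himg : (range (m+1)).image v = U := by
        apply Finset.eq_of_subset_of_card_le
        · intro x hx
          rw [Finset.mem_image] at hx
          obtain ⟨j, hj, rfl⟩ := hx
          exact hmem j (mem_range.mp hj)
        · rw [Finset.card_image_of_injOn, card_range, hU]
          intro a ha b hb hab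
          exact hinj a (by simpa using ha) b (by simpa using hb) hab
      have hs : ∀ x, ∑ j ∈ range (m+1), A x (v j) = ∑ y ∈ U, A x y := by
        intro x
        rw [← himg, Finset.sum_image]
        intro a ha b hb hab
        exact hinj a (by simpa using ha) b (by simpa using hb) hab
      rw [hs, hs, hvn]
      exact hmin _ (hmem i (by omega))

open Pool.Agent.V11145.EdgeMap in
open Classical in
theorem no_blocking (H : SimpleGraph (Fin 8)) (f : H.edgeSet → H.edgeSet)
    (hd : ∀ e, DisjointAt f e) (hb : Blocking (SimpleGraph.pathGraph 3) f)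
    (hm : 14 ≤ H.edgeSet.ncard) : False := by
  set A : Fin 8 → Fin 8 → ℕ := fun x y => if H.Adj x y then 1 else 0 with hA
  set P : Fin 8 → Fin 8 → Fin 8 → ℕ := fun x y z =>
    if ∃ h : H.Adj x y, z ∈ (f ⟨s(x, y), h⟩ : Sym2 (Fin 8)) then 1 else 0 with hP
  have hA1 : ∀ x y, A x y = 1 ↔ H.Adj x y := by intro x y; simp [hA]
  have hA0 : ∀ x y, ¬ H.Adj x y → A x y = 0 := by intro x y h; simp [hA, h]
  have hAsymm : ∀ x y, A x y = A y x := by intro x y; simp [hA, H.adj_comm]
  have hPsymm : ∀ x y z, P x y z = P y x z := by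
    intro x y z
    simp only [hP]
    congr 1
    apply propext
    constructor
    · rintro ⟨h, hz⟩
      refine ⟨h.symm, ?_⟩
      have : (⟨s(y, x), h.symm⟩ : H.edgeSet) = ⟨s(x, y), h⟩ := Subtype.ext Sym2.eq_swap
      rw [this]; exact hz
    · rintro ⟨h, hz⟩
      refine ⟨h.symm, ?_⟩
      have : (⟨s(x, y), h.symm⟩ : H.edgeSet) = ⟨s(y, x), h⟩ := Subtype.ext Sym2.eq_swap
      rw [this]; exact hz
  have hPdiag : ∀ x y, P x y y = 0 := by
    intro x y
    simp only [hP]
    rw [if_neg]
    rintro ⟨h, hz⟩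
    have := hd _ y hz
    simp at this
  have hPpath : ∀ a b c, H.Adj a b → H.Adj b c → a ≠ c → 1 ≤ P a b c + P b c a := by
    intro a b c hab hbc hac
    rcases blocking_path hd hb a b c hab hbc hac with h | h
    · have : P a b c = 1 := by simp only [hP]; rw [if_pos ⟨hab, h⟩]
      omega
    · have : P b c a = 1 := by simp only [hP]; rw [if_pos ⟨hbc, h⟩]
      omega
  obtain ⟨v, _, hinj, hmin⟩ := exists_order A 8 univ (by simp)
  have hneed : ∀ x y z, x ≠ y → x ≠ z → y ≠ z →
      A x y + A x z + A y z - 1 ≤ P x y z + P y z x + P x z y := by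
    intro x y z hxy hxz hyz
    have k1 := hPpath x y z
    have k2 := hPpath x z y
    have k3 := hPpath y x z
    rw [hPsymm z y x] at k2
    rw [hPsymm y x z] at k3
    by_cases a1 : H.Adj x y <;> by_cases a2 : H.Adj x z <;> by_cases a3 : H.Adj y z
    · rw [(hA1 _ _).mpr a1, (hA1 _ _).mpr a2, (hA1 _ _).mpr a3]
      have := k1 a1 a3 hxz
      have := k2 a2 a3.symm hxy
      have := k3 a1.symm a2 hyz
      omega
    · rw [(hA1 _ _).mpr a1, (hA1 _ _).mpr a2, hA0 _ _ a3]
      have := k3 a1.symm a2 hyz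
      omega
    · rw [(hA1 _ _).mpr a1, hA0 _ _ a2, (hA1 _ _).mpr a3]
      have := k1 a1 a3 hxz
      omega
    · rw [(hA1 _ _).mpr a1, hA0 _ _ a2, hA0 _ _ a3]; omega
    · rw [hA0 _ _ a1, (hA1 _ _).mpr a2, (hA1 _ _).mpr a3]
      have := k2 a2 a3.symm hxy
      omega
    · rw [hA0 _ _ a1, (hA1 _ _).mpr a2, hA0 _ _ a3]; omega
    · rw [hA0 _ _ a1, hA0 _ _ a2, (hA1 _ _).mpr a3]; omega
    · rw [hA0 _ _ a1, hA0 _ _ a2, hA0 _ _ a3]; omega
  have hirr : ∀ x, A x x = 0 := fun x => hA0 _ _ (H.irrefl)
  have hsum : ∀ g : Fin 8 → ℕ, ∑ j ∈ range 8, g (v j) = ∑ x, g x := by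
    intro g
    have hinj' : Set.InjOn v (range 8 : Finset ℕ) := by
      intro a ha b hb hab
      exact hinj a (by simpa using ha) b (by simpa using hb) hab
    have himg : (range 8).image v = univ := by
      apply Finset.eq_univ_of_card
      rw [Finset.card_image_of_injOn hinj', card_range]; simp
    rw [← himg, Finset.sum_image hinj']
  have hsurj : ∀ x : Fin 8, ∃ i < 8, v i = x := by
    intro x
    by_contra hcon
    push Not at hcon
    have h1 := hsum (fun y => if y = x then 1 else 0)
    rw [Finset.sum_eq_zero] at h1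
    · simp at h1
    · intro j hj
      rw [if_neg (hcon j (mem_range.mp hj))]
  have hpsum : ∀ n ≤ 8, ∀ x y, ∑ k ∈ range n, P x y (v k) ≤ 2 * A x y := by
    intro n hn x y
    by_cases hxy : H.Adj x y
    · rw [(hA1 _ _).mpr hxy]
      obtain ⟨u, w, huw⟩ : ∃ u w, (f ⟨s(x, y), hxy⟩ : Sym2 (Fin 8)) = s(u, w) := by
        induction (f ⟨s(x, y), hxy⟩ : Sym2 (Fin 8)) using Sym2.ind with
        | h u w => exact ⟨u, w, rfl⟩
      have h1 : ∀ k, P x y (v k) = if v k ∈ ({u, w} : Finset (Fin 8)) then 1 else 0 := by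
        intro k
        simp only [hP]
        congr 1
        apply propext
        rw [Finset.mem_insert, Finset.mem_singleton, ← Sym2.mem_iff, ← huw]
        exact ⟨fun ⟨_, h⟩ => h, fun h => ⟨hxy, h⟩⟩
      simp only [h1]
      rw [← Finset.card_filter]
      calc _ ≤ ({u, w} : Finset (Fin 8)).card := by
            apply Finset.card_le_card_of_injOn v
            · intro k hk
              simp only [Finset.coe_filter, Set.mem_ofPred_eq] at hk
              exact hk.2
            · intro a ha b hb hab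
              simp only [Finset.coe_filter, Set.mem_ofPred_eq, mem_range] at ha hb
              exact hinj a (by omega) b (by omega) hab
        _ ≤ 2 * 1 := Finset.card_le_two
    · rw [Finset.sum_eq_zero]
      · exact Nat.zero_le _
      · intro k _
        simp only [hP]
        rw [if_neg]
        rintro ⟨h, _⟩
        exact hxy h
  have D : Data (fun i j => A (v i) (v j)) (fun i j k => P (v i) (v j) (v k)) := by
    refine ⟨fun i j => hAsymm _ _, fun i => hirr _, ?_, fun i j k => hPsymm _ _ _,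
      fun i j => hPdiag _ _, fun n hn i j => hpsum n hn _ _, ?_, hmin, ?_, ?_⟩
    · intro i j
      simp only [hA]
      split_ifs <;> omega
    · intro i j k hij hjk hk
      apply hneed
      · intro h; have := hinj i (by omega) j (by omega) h; omega
      · intro h; have := hinj i (by omega) k (by omega) h; omega
      · intro h; have := hinj j (by omega) k (by omega) h; omega
    · have h1 := sum_pairs (fun i j => A (v i) (v j)) 8
      have h2 : ∑ i ∈ range 8, A (v i) (v i) = 0 := Finset.sum_eq_zero fun i _ => hirr _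
      have h3 : ∑ j ∈ range 8, ∑ i ∈ range j, (A (v j) (v i) + A (v i) (v j))
          = 2 * ∑ j ∈ range 8, ∑ i ∈ range j, A (v i) (v j) := by
        rw [Finset.mul_sum]
        refine Finset.sum_congr rfl fun j _ => ?_
        rw [Finset.mul_sum]
        refine Finset.sum_congr rfl fun i _ => ?_
        rw [hAsymm (v j) (v i)]; ring
      have h4 : ∑ i ∈ range 8, ∑ j ∈ range 8, A (v i) (v j) = ∑ x, ∑ y, A x y := by
        rw [← hsum (fun x => ∑ y, A x y)]
        exact Finset.sum_congr rfl fun i _ => hsum (fun y => A (v i) y)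
      have h5 : ∑ x, ∑ y, A x y = 2 * H.edgeFinset.card := by
        rw [← SimpleGraph.sum_degrees_eq_twice_card_edges]
        refine Finset.sum_congr rfl fun x _ => ?_
        simp only [hA]
        rw [← SimpleGraph.card_neighborFinset_eq_degree, SimpleGraph.neighborFinset_eq_filter,
          Finset.card_filter]
      have h6 : H.edgeSet.ncard = H.edgeFinset.card := by
        rw [← SimpleGraph.coe_edgeFinset, Set.ncard_coe_finset]
      omega
    · intro i hi j hj hij
      rw [hA1] at hij
      set e : H.edgeSet := ⟨s(v i, v j), hij⟩ with he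
      obtain ⟨u, w, huw⟩ : ∃ u w, (f e : Sym2 (Fin 8)) = s(u, w) := by
        induction (f e : Sym2 (Fin 8)) using Sym2.ind with
        | h u w => exact ⟨u, w, rfl⟩
      obtain ⟨x, hx, hxu⟩ := hsurj u
      obtain ⟨y, hy, hyw⟩ := hsurj w
      have hadj : H.Adj u w := by
        have := (f e).2
        rw [huw] at this
        exact this
      refine ⟨x, hx, y, hy, ?_, ?_, ?_⟩
      · rw [hxu, hyw, hA1]; exact hadj
      · simp only [hP]
        have hmem : v x ∈ (f e : Sym2 (Fin 8)) := by rw [hxu, huw]; exact Sym2.mem_mk_left u w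
        exact if_pos ⟨hij, hmem⟩
      · simp only [hP]
        have hmem : v y ∈ (f e : Sym2 (Fin 8)) := by rw [hyw, huw]; exact Sym2.mem_mk_right u w
        exact if_pos ⟨hij, hmem⟩
  exact core D

theorem s_le : s 8 (SimpleGraph.pathGraph 3) ≤ 13 := by
  apply csSup_le'
  rintro m ⟨H, f, hd, hb, rfl⟩
  by_contra hcon
  exact no_blocking H f hd hb (by omega)

/-! ## The lower bound for `p` -/

/-- the fourteen edges sent to an edge disjoint from them, with their images -/
def table : List (Sym2 (Fin 8) × Sym2 (Fin 8)) :=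
  [(s(0,2), s(5,6)), (s(0,3), s(2,6)), (s(0,5), s(3,7)), (s(0,7), s(2,3)), (s(1,2), s(0,4)),
   (s(1,4), s(2,6)), (s(1,6), s(2,4)), (s(2,4), s(0,6)), (s(2,6), s(1,3)), (s(3,5), s(0,6)),
   (s(3,6), s(1,7)), (s(3,7), s(0,5)), (s(4,6), s(2,3)), (s(5,7), s(0,3))]

def look (e : Sym2 (Fin 8)) : Sym2 (Fin 8) := (table.lookup e).getD e

theorem look_mem : ∀ a b : Fin 8, a ≠ b → ¬ (look s(a, b)).IsDiag := by decide +kernel

theorem look_block : ∀ a b c : Fin 8, a ≠ b → b ≠ c → a ≠ c →
    (a ∈ look s(a, b) ∨ b ∈ look s(a, b) ∨ c ∈ look s(a, b)) ∨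
    (a ∈ look s(b, c) ∨ b ∈ look s(b, c) ∨ c ∈ look s(b, c)) := by decide +kernel

def big : Finset (Sym2 (Fin 8)) := (table.map Prod.fst).toFinset

theorem big_card : big.card = 14 := by decide +kernel

theorem big_disj : ∀ e ∈ big, ¬ e.IsDiag ∧ ∀ x, x ∈ look e → x ∉ e := by decide +kernel

theorem mem_top_iff (e : Sym2 (Fin 8)) :
    e ∈ (⊤ : SimpleGraph (Fin 8)).edgeSet ↔ ¬ e.IsDiag := by
  induction e using Sym2.ind with
  | h a b => simp

def F (e : (⊤ : SimpleGraph (Fin 8)).edgeSet) : (⊤ : SimpleGraph (Fin 8)).edgeSet :=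
  ⟨look e.1, by
    obtain ⟨e, he⟩ := e
    rw [mem_top_iff] at he ⊢
    induction e using Sym2.ind with
    | h a b => exact look_mem a b (by simpa using he)⟩

theorem F_block : Blocking (SimpleGraph.pathGraph 3) F := by
  intro φ hφ
  have hinj := φ.injective
  have h01 : φ 0 ≠ φ 1 := fun h => by have := hinj h; simp at this
  have h12 : φ 1 ≠ φ 2 := fun h => by have := hinj h; simp at this
  have h02 : φ 0 ≠ φ 2 := fun h => by have := hinj h; simp at this
  have e1 : s((0 : Fin 3), 1) ∈ (SimpleGraph.pathGraph 3).edgeSet := by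
    rw [SimpleGraph.mem_edgeSet, SimpleGraph.pathGraph_adj]; simp
  have e2 : s((1 : Fin 3), 2) ∈ (SimpleGraph.pathGraph 3).edgeSet := by
    rw [SimpleGraph.mem_edgeSet, SimpleGraph.pathGraph_adj]; simp
  have k1 : ∀ w, φ w ∉ look s(φ 0, φ 1) := fun w => hφ ⟨_, e1⟩ w
  have k2 : ∀ w, φ w ∉ look s(φ 1, φ 2) := fun w => hφ ⟨_, e2⟩ w
  rcases look_block (φ 0) (φ 1) (φ 2) h01 h12 h02 with (h | h | h) | (h | h | h)
  · exact k1 0 h
  · exact k1 1 h
  · exact k1 2 h
  · exact k2 0 h
  · exact k2 1 h
  · exact k2 2 h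

theorem le_p : 14 ≤ p 8 (SimpleGraph.pathGraph 3) := by
  apply le_csSup
  · refine ⟨Fintype.card (⊤ : SimpleGraph (Fin 8)).edgeSet, ?_⟩
    rintro m ⟨f, hm, _⟩
    refine hm.trans ?_
    rw [← Nat.card_eq_fintype_card]
    exact (Set.ncard_le_card _)
  · refine ⟨F, ?_, F_block⟩
    have hsub : (big : Set (Sym2 (Fin 8))) ⊆
        Subtype.val '' {e : (⊤ : SimpleGraph (Fin 8)).edgeSet | DisjointAt F e} := by
      intro e he
      have := big_disj e he
      exact ⟨⟨e, (mem_top_iff e).mpr this.1⟩, this.2, rfl⟩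
    have h1 := Set.ncard_le_ncard hsub (Set.toFinite _)
    rw [Set.ncard_coe_finset, big_card, Set.ncard_image_of_injective _ Subtype.val_injective] at h1
    exact h1

/-- For the path `P_3` with three vertices, `s(8, P_3) ≤ 13` while `p(8, P_3) ≥ 14`; so the
host-graph and the global parameters are different. -/
theorem result : s 8 (SimpleGraph.pathGraph 3) ≤ 13 ∧ 14 ≤ p 8 (SimpleGraph.pathGraph 3) :=
  ⟨s_le, le_p⟩

end Pool.Agent.Results.MP_f12eed_co.GlobalNotHost
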